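import Mathlib

/-! The determinant lower bound for balancing into the `ℓ¹` norm. -/

open MeasureTheory Finset
open scoped Matrix

namespace Pool.Agent.MP_122bd4_an.Unc

variable {Ω J : Type} [Fintype Ω] [Fintype J] [DecidableEq J]

theorem det_avg (w : Ω → ℝ) (h0 : ∀ ω, 0 ≤ w ω) (h1 : ∑ ω, w ω = 1) (u : Ω → J → ℝ) (d : J → ℝ)
    (hu : ∀ a b, ∑ ω, w ω * (u ω a * u ω b) = if a = b then d a else 0) :
    ∃ f : J → Ω, (Fintype.card J).factorial * ∏ a, d a ≤
      (Matrix.of fun a l => u (f l) a).det ^ 2 := by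
  have : Nonempty Ω := by
    by_contra h
    rw [not_nonempty_iff] at h
    simp at h1
  obtain ⟨f, hf⟩ := Finite.exists_max fun f : J → Ω => (Matrix.of fun a l => u (f l) a).det ^ 2
  refine ⟨f, ?_⟩
  have e1 : ∑ g : J → Ω, ∏ l, w (g l) = 1 := by
    rw [← Fintype.piFinset_univ, ← prod_univ_sum (fun _ => univ) fun _ ω => w ω]
    simp [h1]
  have e2 : ∑ g : J → Ω, (∏ l, w (g l)) * (Matrix.of fun a l => u (g l) a).det ^ 2 =
      (Fintype.card J).factorial * ∏ a, d a := by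
    have : ∀ g : J → Ω, (∏ l, w (g l)) * (Matrix.of fun a l => u (g l) a).det ^ 2 =
        ∑ σ : Equiv.Perm J, ∑ τ : Equiv.Perm J, ((Equiv.Perm.sign σ : ℤ) : ℝ) *
          ((Equiv.Perm.sign τ : ℤ) : ℝ) * ∏ l, w (g l) * (u (g l) (σ l) * u (g l) (τ l)) :=
      fun g => by
        rw [sq, Matrix.det_apply', sum_mul_sum, mul_sum]
        refine sum_congr rfl fun σ _ => ?_
        rw [mul_sum]
        refine sum_congr rfl fun τ _ => ?_
        simp only [prod_mul_distrib, Matrix.of_apply]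
        ring
    simp only [this]
    rw [sum_comm]
    have : ∀ σ : Equiv.Perm J, ∑ g : J → Ω, ∑ τ : Equiv.Perm J, ((Equiv.Perm.sign σ : ℤ) : ℝ) *
        ((Equiv.Perm.sign τ : ℤ) : ℝ) * ∏ l, w (g l) * (u (g l) (σ l) * u (g l) (τ l)) =
        ∏ a, d a := fun σ => by
      rw [sum_comm]
      simp only [← mul_sum]
      have : ∀ τ : Equiv.Perm J, ∑ g : J → Ω, ∏ l, w (g l) * (u (g l) (σ l) * u (g l) (τ l)) =
          if τ = σ then ∏ a, d a else 0 := fun τ => by
        rw [← Fintype.piFinset_univ,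
          ← prod_univ_sum (fun _ => univ) fun l ω => w ω * (u ω (σ l) * u ω (τ l))]
        simp only [hu]
        split_ifs with h
        · simp [h, Equiv.prod_comp σ d]
        · obtain ⟨l, hl⟩ := not_forall.1 (mt Equiv.ext h)
          exact prod_eq_zero (mem_univ l) (if_neg (Ne.symm hl))
      simp only [this, mul_ite, mul_zero, sum_ite_eq', mem_univ, if_true]
      rw [← Int.cast_mul, ← Units.val_mul, Int.units_mul_self]
      simp
    simp [this, Fintype.card_perm]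
  rw [← e2, ← one_mul (_ ^ 2), ← e1, sum_mul]
  exact sum_le_sum fun g _ => mul_le_mul_of_nonneg_left (hf g) (prod_nonneg fun l _ => h0 _)

omit [DecidableEq J] in
theorem lsv (M : Matrix J J ℝ) {β : ℝ} (hβ : 0 ≤ β) (h : ∀ S : Finset J, ∃ ε : J → ℝ,
    (∀ l, ε l = 1 ∨ ε l = -1) ∧ ∑ a, |∑ l ∈ S, ε l * M a l| ≤ β) (t : ℕ) :
    ∀ x : J → ℝ, (∀ l, 0 ≤ x l ∧ x l ≤ 1) → ∃ z : J → ℝ, (∀ l, z l = 0 ∨ z l = 1) ∧
      ∑ a, |∑ l, (x l - z l) * M a l| ≤ β + (∑ a, ∑ l, |M a l|) / 2 ^ t := by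
  classical
  induction t with
  | zero =>
    refine fun x hx => ⟨0, fun _ => Or.inl rfl, le_add_of_nonneg_of_le hβ ?_⟩
    rw [pow_zero, div_one]
    refine sum_le_sum fun a _ => (abs_sum_le_sum_abs _ _).trans (sum_le_sum fun l _ => ?_)
    rw [abs_mul, Pi.zero_apply, sub_zero, abs_of_nonneg (hx l).1]
    exact mul_le_of_le_one_left (abs_nonneg _) (hx l).2
  | succ t ih =>
    intro x hx
    obtain ⟨z, z1, z2⟩ := ih (fun l => if 2 * x l ≤ 1 then 2 * x l else 2 * x l - 1) fun l => by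
      split_ifs <;> constructor <;> linarith [hx l]
    obtain ⟨ε, e1, e2⟩ := h {l | z l = if 2 * x l ≤ 1 then 1 else 0}
    refine ⟨fun l => if z l = (if 2 * x l ≤ 1 then 1 else 0) then (1 + ε l) / 2 else z l,
      fun l => ?_, ?_⟩
    · by_cases k : z l = if 2 * x l ≤ 1 then 1 else 0
      · simp only [if_pos k]
        rcases e1 l with e | e <;> simp [e]
      · simpa only [if_neg k] using z1 l
    · have e : ∀ a, ∑ l, (x l - if z l = (if 2 * x l ≤ 1 then 1 else 0) then (1 + ε l) / 2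
          else z l) * M a l =
          (∑ l, ((if 2 * x l ≤ 1 then 2 * x l else 2 * x l - 1) - z l) * M a l -
            ∑ l ∈ {l | z l = if 2 * x l ≤ 1 then 1 else 0}, ε l * M a l) / 2 := fun a => by
        rw [sum_filter, ← sum_sub_distrib, sum_div]
        refine sum_congr rfl fun l _ => ?_
        rcases z1 l with k | k <;> by_cases k' : 2 * x l ≤ 1 <;> simp [k, k'] <;> ring
      simp only [e, abs_div, abs_two, ← sum_div]
      have := (sum_le_sum fun a (_ : a ∈ univ) => abs_sub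
        (∑ l, ((if 2 * x l ≤ 1 then 2 * x l else 2 * x l - 1) - z l) * M a l)
        (∑ l ∈ {l | z l = if 2 * x l ≤ 1 then 1 else 0}, ε l * M a l)).trans_eq sum_add_distrib
      rw [pow_succ, ← div_div]
      linarith

theorem vol [Nonempty J] (M : Matrix J J ℝ) {β : ℝ} (hβ : 0 < β) (h : ∀ S : Finset J,
    ∃ ε : J → ℝ, (∀ l, ε l = 1 ∨ ε l = -1) ∧ ∑ a, |∑ l ∈ S, ε l * M a l| ≤ β) :
    |M.det| * (Fintype.card J).factorial ≤ (8 * β) ^ Fintype.card J := by
  by_cases hd : M.det = 0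
  · rw [hd, abs_zero, zero_mul]; positivity
  obtain ⟨t, ht⟩ := pow_unbounded_of_one_lt ((∑ a, ∑ l, |M a l|) / β) one_lt_two
  have ht' : (∑ a, ∑ l, |M a l|) / 2 ^ t ≤ β := by
    rw [div_le_iff₀' (by positivity), ← div_le_iff₀ hβ]; exact ht.le
  set B : Set (J → ℝ) := {y | (∑ a, |y a| ^ (1 : ℝ)) ^ (1 / (1 : ℝ)) ≤ 2 * β} with hB
  have cov : Set.Icc (0 : J → ℝ) 1 ⊆ ⋃ z ∈ Fintype.piFinset fun _ : J => ({0, 1} : Finset ℝ),
      (fun x => x + -z) ⁻¹' (Matrix.toLin' M ⁻¹' B) := fun x hx => by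
    obtain ⟨z, z1, z2⟩ := lsv M hβ.le h t x fun l => ⟨hx.1 l, hx.2 l⟩
    refine Set.mem_biUnion (x := z) (by simpa using z1) ?_
    simp only [hB, Set.mem_preimage, Set.mem_ofPred_eq, div_one, Real.rpow_one,
      Matrix.toLin'_apply, Matrix.mulVec, dotProduct, Pi.add_apply, Pi.neg_apply,
      ← sub_eq_add_neg, mul_comm (M _ _), Pi.sub_apply]
    linarith
  have h1 := (measure_mono (μ := volume) cov).trans (measure_biUnion_finset_le _ _)
  simp only [measure_preimage_add_right, sum_const, Real.volume_Icc_pi] at h1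
  rw [Measure.addHaar_preimage_linearMap _ (by rwa [LinearMap.det_toLin']), hB,
    volume_sum_rpow_le J (p := 1) le_rfl, LinearMap.det_toLin', Fintype.card_piFinset, div_one, div_one,
    Real.Gamma_nat_eq_factorial, one_add_one_eq_two, Real.Gamma_two,
    ← ENNReal.ofReal_pow (by positivity), ← ENNReal.ofReal_mul (by positivity),
    ← ENNReal.ofReal_mul (abs_nonneg _), nsmul_eq_mul, ← ENNReal.ofReal_natCast,
    ← ENNReal.ofReal_mul (Nat.cast_nonneg _)] at h1
  simp only [Pi.one_apply, Pi.zero_apply, sub_zero, ENNReal.ofReal_one, prod_const_one,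
    ENNReal.one_le_ofReal, card_pair (zero_ne_one' ℝ), prod_const, card_univ, abs_inv] at h1
  have f0 : (0 : ℝ) < (Fintype.card J).factorial := by positivity
  have d0 := abs_pos.2 hd
  rw [show 8 * β = 2 * (2 * β * (2 * 1)) by ring, mul_pow, mul_pow]
  push_cast at h1
  field_simp at h1
  simpa [sq, mul_comm, mul_assoc, mul_left_comm] using h1

theorem block [Nonempty J] (w : Ω → ℝ) (h0 : ∀ ω, 0 ≤ w ω) (h1 : ∑ ω, w ω = 1) (u : Ω → J → ℝ)
    (d : J → ℝ) (hu : ∀ a b, ∑ ω, w ω * (u ω a * u ω b) = if a = b then d a else 0) {y β : ℝ}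
    (hy : 0 ≤ y) (hd : ∀ a, y ≤ d a) (hβ : 0 < β)
    (hlt : 1728 * β ^ 2 < (Fintype.card J : ℝ) ^ 3 * y) :
    ∃ (f : J → Ω) (S : Finset J), ∀ ε : J → ℝ, (∀ l, ε l = 1 ∨ ε l = -1) →
      β ≤ ∑ a, |∑ l ∈ S, ε l * u (f l) a| := by
  obtain ⟨f, hf⟩ := det_avg w h0 h1 u d hu
  by_contra h
  push Not at h
  have hv := vol (Matrix.of fun a l => u (f l) a) hβ fun S =>
    (h f S).imp fun ε k => ⟨k.1, k.2.le⟩
  set k := Fintype.card J with hk
  have k0 : k ≠ 0 := Fintype.card_ne_zero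
  have a1 : y ^ k ≤ ∏ a, d a := by
    simpa using prod_le_prod (s := univ) (fun a _ => hy) fun a _ => hd a
  have a2 : ((k : ℝ) / 3) ^ k ≤ k.factorial := by
    have := Real.pow_div_factorial_le_exp (k : ℝ) (by positivity) k
    rw [div_le_iff₀ (by positivity), ← Real.exp_one_pow] at this
    rw [div_pow, div_le_iff₀' (by positivity)]
    exact this.trans (by gcongr; linarith [Real.exp_one_lt_d9])
  have a3 := pow_le_pow_left₀ (by positivity) hv 2
  rw [mul_pow, sq_abs, ← pow_mul, mul_comm k, pow_mul] at a3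
  have a4 : (((k : ℝ) / 3) ^ 3 * y) ^ k ≤ ((8 * β) ^ 2) ^ k := by
    refine le_trans ?_ a3
    rw [mul_pow, ← pow_mul, mul_comm 3, pow_mul]
    calc _ ≤ (k.factorial : ℝ) ^ 3 * ∏ a, d a := by gcongr
      _ = (k.factorial * ∏ a, d a) * (k.factorial : ℝ) ^ 2 := by ring
      _ ≤ _ := by gcongr
  have := le_of_pow_le_pow_left₀ k0 (by positivity) a4
  linarith

end Pool.Agent.MP_122bd4_an.Unc
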