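import Pool.Agent.MP_122bd4_an.Defs

/-! Vector balancing constants between two norms of `ℝ^m`; unconditional norms. -/

open scoped ENNReal

namespace Pool.Agent.MP_122bd4_an

/-- The vector balancing constant `α(X, Y)`. -/
noncomputable def bal {m : ℕ} (X Y : (Fin m → ℝ) → ℝ) : ℝ≥0∞ :=
  ⨆ (n : ℕ) (v : Fin n → Fin m → ℝ) (_ : ∀ l, X (v l) ≤ 1),
    ⨅ (ε : Fin n → ℝ) (_ : ∀ l, ε l = 1 ∨ ε l = -1), ENNReal.ofReal (Y (∑ l, ε l • v l))

/-- `X` is a norm that does not change when the signs of the coordinates are changed. -/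
def UncNorm {m : ℕ} (X : Seminorm ℝ (Fin m → ℝ)) : Prop :=
  (∀ v, X v = 0 → v = 0) ∧
    ∀ σ v : Fin m → ℝ, (∀ j, σ j = 1 ∨ σ j = -1) → X (fun j => σ j * v j) = X v

end Pool.Agent.MP_122bd4_an
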