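import Pool.Agent.MP_122bd4_an.Unc.Split

/-! The bound of Komlos type: vectors of Euclidean norm at most one have a signed sum of sup norm
at most `60`. -/

open MeasureTheory Finset

namespace Pool.Agent.MP_122bd4_an.Unc

/-- the tent -/
noncomputable def tent (s : ℝ) : ℝ := max 0 (60 - |s|)

theorem tent_cont : Continuous tent := by unfold tent; fun_prop

theorem tent_zero {s : ℝ} (h : 60 ≤ |s|) : tent s = 0 := max_eq_left (by linarith)

theorem tent_lip (s u : ℝ) : |tent (s + u) - tent s| ≤ |u| := by
  unfold tent
  refine (abs_max_sub_max_le_max _ _ _ _).trans (max_le (by simp) ?_)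
  have := abs_abs_sub_abs_le_abs_sub s (s + u)
  rw [show s - (s + u) = -u by ring, abs_neg] at this
  rwa [show 60 - |s + u| - (60 - |s|) = |s| - |s + u| by ring]

theorem tent_supp : HasCompactSupport tent :=
  HasCompactSupport.intro (isCompact_closedBall (0 : ℝ) 60) fun _ h =>
    tent_zero (by simpa using (not_le.1 (mt mem_closedBall_zero_iff.2 h)).le)

theorem tent_int (u : ℝ) : Integrable fun s => tent (s + u) * tent s :=
  ((tent_cont.comp (by fun_prop)).mul tent_cont).integrable_of_hasCompactSupport
    tent_supp.mul_left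

theorem tent_sq : Integrable fun s => tent s * tent s := by simpa using tent_int 0

theorem tent_mass : 54000 ≤ ∫ s, tent s * tent s := by
  have h := integral_mono (μ := volume) (f := (Set.Icc (-30 : ℝ) 30).indicator fun _ => (900 : ℝ))
    ((integrable_indicator_iff measurableSet_Icc).2 (integrableOn_const (by simp))) tent_sq
    fun s => by
      by_cases hs : s ∈ Set.Icc (-30 : ℝ) 30
      · have : 30 ≤ tent s := le_max_of_le_right (by linarith [abs_le.2 hs])
        rw [Set.indicator_of_mem hs]
        nlinarith
      · rw [Set.indicator_of_notMem hs]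
        exact mul_self_nonneg _
  rw [integral_indicator_const _ measurableSet_Icc] at h
  norm_num at h
  linarith

theorem tent_shift {u : ℝ} (hu : |u| ≤ 6) :
    (1 - u ^ 2 / 800) * ∫ s, tent s * tent s ≤ ∫ s, tent (s + u) * tent s := by
  have i1 : Integrable fun s => tent (s + u) * tent (s + u) := tent_sq.comp_add_right u
  have i2 : Integrable fun s => tent (s + u) * tent (s + u) + tent s * tent s := i1.add tent_sq
  have h := integral_mono (μ := volume) (g := (Set.Icc (-66 : ℝ) 66).indicator fun _ => u ^ 2)
    (i2.sub ((tent_int u).const_mul 2))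
    ((integrable_indicator_iff measurableSet_Icc).2 (integrableOn_const (by simp)))
    fun s => by
      by_cases hs : s ∈ Set.Icc (-66 : ℝ) 66
      · have := sq_le_sq.2 (tent_lip s u)
        rw [Set.indicator_of_mem hs]
        simp only [Pi.sub_apply]
        nlinarith
      · have h1 : 66 < |s| := not_le.1 (mt abs_le.1 hs)
        have h2 := abs_add_le (s + u) (-u)
        rw [add_neg_cancel_right, abs_neg] at h2
        rw [Set.indicator_of_notMem hs]
        simp [tent_zero (show 60 ≤ |s| by linarith), tent_zero (show 60 ≤ |s + u| by linarith)]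
  rw [integral_indicator_const _ measurableSet_Icc] at h
  simp only [Pi.sub_apply] at h
  rw [integral_sub i2 ((tent_int u).const_mul 2), integral_add i1 tent_sq, integral_const_mul,
    integral_add_right_eq_self (fun s => tent s * tent s) u] at h
  norm_num at h
  nlinarith [tent_mass, sq_nonneg u]

theorem weier {ι : Type} (s : Finset ι) (a : ι → ℝ) (h0 : ∀ i, 0 ≤ a i) (h1 : ∀ i, a i ≤ 1) :
    1 - ∑ i ∈ s, a i ≤ ∏ i ∈ s, (1 - a i) := by
  classical
  induction s using Finset.induction_on with
  | empty => simp
  | insert i s hi ih =>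
    rw [sum_insert hi, prod_insert hi]
    nlinarith [mul_le_mul_of_nonneg_left ih (sub_nonneg.2 (h1 i)), h0 i,
      mul_nonneg (h0 i) (sum_nonneg fun j (_ : j ∈ s) => h0 j)]

theorem komlos {m n : ℕ} (v : Fin n → Fin m → ℝ) (hv : ∀ l, ∑ j, v l j ^ 2 ≤ 1) :
    ∃ ε : Fin n → ℝ, (∀ l, ε l = 1 ∨ ε l = -1) ∧ ∀ j, |∑ l, ε l * v l j| ≤ 60 := by
  set N := ∫ s, tent s * tent s with hN
  have N0 : 0 < N := by linarith [tent_mass]
  set Φ : (Fin m → ℝ) → ℝ := fun x => ∏ j, tent (x j) with hΦ
  have p1 : Continuous Φ := continuous_finsetProd _ fun j _ => tent_cont.comp (continuous_apply j)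
  have p0 : ∀ x, Φ x ≠ 0 → x ∈ Metric.closedBall (0 : Fin m → ℝ) 60 := fun x hx =>
    mem_closedBall_zero_iff.2 ((pi_norm_le_iff_of_nonneg (by norm_num)).2 fun j => by
      by_contra h
      exact hx (prod_eq_zero (mem_univ j) (tent_zero (not_le.1 h).le)))
  have p2 : HasCompactSupport Φ :=
    HasCompactSupport.intro (isCompact_closedBall 0 60) fun x h => not_not.1 (mt (p0 x) h)
  have p3 : ∀ u, Integrable fun x => Φ (x + u) * Φ x := fun u =>
    ((p1.comp (by fun_prop)).mul p1).integrable_of_hasCompactSupport p2.mul_left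
  have p4 : ∀ u, ∫ x, Φ (x + u) * Φ x = ∏ j, ∫ s, tent (s + u j) * tent s := fun u => by
    simp only [hΦ, ← prod_mul_distrib, Pi.add_apply]
    exact integral_fintype_prod_volume_eq_prod fun j s => tent (s + u j) * tent s
  have p5 : ∫ x, Φ x * Φ x = N ^ m := by simpa using p4 0
  have p6 : Integrable fun x => Φ x * Φ x := by simpa using p3 0
  obtain ⟨ε, e1, e2, -⟩ := split n Unit (fun _ x => Φ x * Φ x / N ^ m) 0 v
    (Metric.closedBall 0 60 ×ˢ Set.univ) (fun _ => (p1.mul p1).div_const _)
    (fun _ => p2.mono fun x hx h => hx (by simp [h]))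
    (fun _ x => div_nonneg (mul_self_nonneg _) (by positivity))
    (by simp [integral_div, p5, N0.ne'])
    (fun f => by
      have := integral_neg_eq_self (fun x => Φ x * Φ x / N ^ m * f x) volume
      simp only [hΦ, tent, Pi.neg_apply, abs_neg, map_neg, mul_neg, integral_neg] at this
      simp only [hΦ, tent, map_zero, Fintype.sum_unique]
      linarith)
    (fun i => by
      set u : Fin m → ℝ := (6 : ℝ) • v i with hu
      have hs : ∑ j, u j ^ 2 / 800 ≤ 36 / 800 := by
        simp only [hu, Pi.smul_apply, smul_eq_mul, mul_pow, ← sum_div, ← mul_sum]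
        linarith [hv i]
      have h1 : ∀ j, u j ^ 2 / 800 ≤ 36 / 800 := fun j =>
        (single_le_sum (f := fun j => u j ^ 2 / 800) (fun j _ => by positivity)
          (mem_univ j)).trans hs
      have h2 : (1 - 36 / 800) * N ^ m ≤ ∫ x, Φ (x + u) * Φ x := by
        rw [p4]
        refine le_trans ?_ (prod_le_prod (f := fun j => (1 - u j ^ 2 / 800) * N)
          (fun j _ => mul_nonneg (by linarith [h1 j]) N0.le)
          fun j _ => tent_shift (abs_le_of_sq_le_sq' (by linarith [h1 j]) (by norm_num) |> abs_le.2))
        rw [prod_mul_distrib, prod_const, card_univ, Fintype.card_fin]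
        exact mul_le_mul_of_nonneg_right (le_trans (by linarith) (weier _ _ (fun j => by positivity)
          fun j => by linarith [h1 j])) (by positivity)
      have i1 : Integrable fun x => Φ (x + u) * Φ (x + u) := p6.comp_add_right u
      have i2 : Integrable fun x => Φ (x + u) * Φ (x + u) + Φ x * Φ x := i1.add p6
      have i3 : Integrable fun x => |Φ (x + u) * Φ (x + u) - Φ x * Φ x| := (i1.sub p6).abs
      have h3 := integral_mono i3 ((i2.const_mul (19 / 6)).sub ((p3 u).const_mul 6)) fun x => by
        simp only [Pi.sub_apply]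
        rw [abs_le]
        constructor <;> nlinarith [sq_nonneg (6 * (Φ (x + u) - Φ x) - (Φ (x + u) + Φ x)),
          sq_nonneg (6 * (Φ (x + u) - Φ x) + (Φ (x + u) + Φ x)), sq_nonneg (Φ (x + u) - Φ x)]
      simp only [Pi.sub_apply] at h3
      rw [integral_sub (i2.const_mul _) ((p3 u).const_mul 6), integral_const_mul,
        integral_const_mul, integral_add i1 p6,
        integral_add_right_eq_self (fun x => Φ x * Φ x) u, p5] at h3
      simp only [Fintype.sum_unique, ← sub_div, abs_div, abs_of_pos (pow_pos N0 m)]
      rw [integral_div, div_le_iff₀ (pow_pos N0 m)]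
      linarith [pow_pos N0 m])
    ((convex_closedBall _ _).prod convex_univ) (Metric.isClosed_closedBall.prod isClosed_univ)
    fun _ x hx => ⟨p0 x fun h => hx (by simp [h]), trivial⟩
  refine ⟨ε, e1, fun j => ?_⟩
  have := (pi_norm_le_iff_of_nonneg (by norm_num)).1 (mem_closedBall_zero_iff.1 e2) j
  simpa [Finset.sum_apply] using this

end Pool.Agent.MP_122bd4_an.Unc
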