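import Pool.Agent.MP_122bd4_an.Unc.Defs

/-! The concave program that produces the diagonal ellipsoid. -/

open Finset Filter Topology

namespace Pool.Agent.MP_122bd4_an.Unc

variable {m : ℕ} {X Y : Seminorm ℝ (Fin m → ℝ)}

theorem mono (h : UncNorm X) {v w : Fin m → ℝ} (hvw : ∀ j, |v j| ≤ |w j|) : X v ≤ X w := by
  have key : ∀ s : Finset (Fin m), X (fun j => if j ∈ s then v j else w j) ≤ X w := fun s => by
    induction s using Finset.induction_on with
    | empty => simp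
    | insert i s hi ih =>
      set u : Fin m → ℝ := fun j => if j ∈ s then v j else w j with hu
      have h1 := h.2 (fun j => if j = i then -1 else 1) u fun j => by split_ifs <;> simp
      obtain ⟨θ, t1, t2⟩ : ∃ θ, |θ| ≤ 1 ∧ v i = θ * w i := by
        by_cases k : w i = 0
        · exact ⟨0, by simp, by simpa [k] using hvw i⟩
        · exact ⟨v i / w i, by rw [abs_div, div_le_one (abs_pos.2 k)]; exact hvw i, by field_simp⟩
      have e : (fun j => if j ∈ insert i s then v j else w j) = ((1 + θ) / 2) • u +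
          ((1 - θ) / 2) • fun j => (if j = i then -1 else 1) * u j := by
        ext j
        by_cases k : j = i
        · simp [k, hu, hi, t2]; ring
        · simp [k, hu]; split_ifs <;> ring
      have t3 := abs_le.1 t1
      rw [e]
      refine (map_add_le_add X _ _).trans ?_
      rw [map_smul_eq_mul, map_smul_eq_mul, h1, Real.norm_of_nonneg (by linarith),
        Real.norm_of_nonneg (by linarith)]
      linarith
  simpa using key univ

theorem pos (h : UncNorm X) (j : Fin m) : 0 < X (Pi.single j 1) :=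
  (apply_nonneg X _).lt_of_ne' fun k => by simpa using congrFun (h.1 _ k) j

theorem coord (h : UncNorm X) (v : Fin m → ℝ) (j : Fin m) : |v j| * X (Pi.single j 1) ≤ X v := by
  rw [← Real.norm_eq_abs, ← map_smul_eq_mul]
  refine mono h fun i => ?_
  by_cases k : i = j <;> simp [k]

theorem expand (y : Fin m → ℝ) : y = ∑ j, y j • (Pi.single j 1 : Fin m → ℝ) := by
  ext i; simp [Finset.sum_apply, Pi.single_apply]

theorem dual (h : UncNorm Y) {a : Fin m → ℝ} (h0 : a ≠ 0) (ha : ∀ j, 0 ≤ a j) :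
    ∃ w : Fin m → ℝ, ((∀ j, 0 ≤ w j) ∧ ∀ y, ∑ j, w j * |y j| ≤ Y y) ∧ Y a ≤ ∑ j, a j * w j := by
  obtain ⟨g, g1, g2⟩ := exists_extension_of_le_sublinear (LinearPMap.mkSpanSingleton a (Y a) h0) Y
    (fun c hc x => by rw [map_smul_eq_mul, Real.norm_of_nonneg hc.le]) (map_add_le_add Y)
    (by
      rintro ⟨x, hx⟩
      obtain ⟨c, rfl⟩ := Submodule.mem_span_singleton.1 hx
      rw [LinearPMap.mkSpanSingleton'_apply, map_smul_eq_mul]
      exact mul_le_mul_of_nonneg_right (le_abs_self c) (apply_nonneg _ _))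
  have ge : ∀ y, g y = ∑ j, y j * g (Pi.single j 1) := fun y => by
    conv_lhs => rw [expand y]
    simp
  refine ⟨fun j => |g (Pi.single j 1)|, ⟨fun j => abs_nonneg _, fun y => ?_⟩, ?_⟩
  · refine le_trans (le_of_eq ?_) ((g2 fun j => if 0 ≤ g (Pi.single j 1) then |y j|
      else -|y j|).trans (mono h fun j => by split_ifs <;> simp))
    rw [ge]
    refine sum_congr rfl fun j _ => ?_
    beta_reduce
    split_ifs with k
    · rw [abs_of_nonneg k, mul_comm]
    · rw [abs_of_neg (not_le.1 k)]; ring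
  · have := g1 ⟨a, Submodule.mem_span_singleton_self a⟩
    rw [LinearPMap.mkSpanSingleton_apply] at this
    rw [← this, ge]
    exact sum_le_sum fun j _ => mul_le_mul_of_nonneg_left (le_abs_self _) (ha j)

theorem foc {g : ℝ → ℝ} {g' : ℝ} (h : HasDerivAt g g' 0) (hm : ∀ t, 0 < t → t < 1 → g t ≤ g 0) :
    g' ≤ 0 := by
  refine le_of_tendsto h.tendsto_slope_zero_right ?_
  filter_upwards [Ioo_mem_nhdsGT (zero_lt_one' ℝ)] with t ht
  rw [zero_add]
  exact mul_nonpos_of_nonneg_of_nonpos (inv_pos.2 ht.1).le (sub_nonpos.2 (hm t ht.1 ht.2))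

theorem opt (hm : 0 < m) (hX : UncNorm X) (hY : UncNorm Y) :
    ∃ (W p : Fin m → ℝ) (ι : Type) (_ : Fintype ι) (c : ι → ℝ) (v : ι → Fin m → ℝ),
      (∀ j, 0 < W j) ∧ (∀ j, 0 < p j) ∧ (∀ y, ∑ j, W j * |y j| ≤ 2 * Y y) ∧ (∀ i, 0 ≤ c i) ∧
      ∑ i, c i = 1 ∧ (∀ i, X (v i) ≤ 1) ∧ (∀ j, p j ^ 3 / 4 ≤ W j ^ 2 * ∑ i, c i * v i j ^ 2) ∧
      Y (fun j => p j / W j) ≤ ∑ j, p j ∧
      ∀ u, X u ≤ 1 → ∑ j, u j ^ 2 / (p j / W j) ^ 2 ≤ ∑ j, p j := by
  have m0 : (0 : ℝ) < m := by exact_mod_cast hm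
  set S : Set (Fin m → ℝ) := {w | (∀ j, 0 ≤ w j) ∧ ∀ y, ∑ j, w j * |y j| ≤ Y y} with hS
  set Q : Set (Fin m → ℝ) := {b | ∃ v, X v ≤ 1 ∧ b = fun j => v j ^ 2} with hQ
  set T := closure (convexHull ℝ Q) with hT
  have s1 : IsCompact S := by
    refine (isCompact_Icc (a := 0) (b := fun j => Y (Pi.single j 1))).of_isClosed_subset ?_
      fun w hw => ⟨hw.1, fun j => ?_⟩
    · simp only [hS, Set.setOf_and, Set.setOf_forall]
      exact (isClosed_iInter fun j => isClosed_le (by fun_prop) (by fun_prop)).inter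
        (isClosed_iInter fun j => isClosed_le (by fun_prop) (by fun_prop))
    · simpa [Pi.single_apply, apply_ite abs] using hw.2 (Pi.single j 1)
  have s2 : Convex ℝ S := by
    rintro w ⟨a1, a2⟩ w' ⟨b1, b2⟩ α β h1 h2 h3
    refine ⟨fun j => add_nonneg (mul_nonneg h1 (a1 j)) (mul_nonneg h2 (b1 j)), fun y => ?_⟩
    simp only [Pi.add_apply, Pi.smul_apply, smul_eq_mul, add_mul, mul_assoc, sum_add_distrib,
      ← mul_sum]
    have := mul_le_mul_of_nonneg_left (a2 y) h1
    have := mul_le_mul_of_nonneg_left (b2 y) h2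
    have : α * Y y + β * Y y = Y y := by rw [← add_mul, h3, one_mul]
    linarith
  have t0 : T ⊆ Set.Icc 0 fun j => (X (Pi.single j 1))⁻¹ ^ 2 := by
    refine closure_minimal (convexHull_min ?_ (convex_Icc _ _)) isClosed_Icc
    rintro _ ⟨v, hv, rfl⟩
    refine ⟨fun j => sq_nonneg _, fun j => sq_le_sq' ?_ ?_⟩ <;>
    · have := (le_div_iff₀ (pos hX j)).2 ((coord hX v j).trans hv)
      rw [one_div] at this
      linarith [abs_le.1 this]
  have t1 : IsCompact T := isCompact_Icc.of_isClosed_subset isClosed_closure t0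
  have t2 : Convex ℝ T := (convex_convexHull ℝ Q).closure
  have t3 : Q ⊆ T := (subset_convexHull ℝ Q).trans subset_closure
  set w₀ : Fin m → ℝ := fun j => Y (Pi.single j 1) / m with hw₀
  set b₀ : Fin m → ℝ := fun j => (m * X (Pi.single j 1))⁻¹ ^ 2 with hb₀
  have w0 : ∀ j, 0 < w₀ j := fun j => div_pos (pos hY j) m0
  have b0 : ∀ j, 0 < b₀ j := fun j => by have := pos hX j; positivity
  have w1 : w₀ ∈ S := ⟨fun j => (w0 j).le, fun y => by
    refine (sum_le_card_nsmul _ _ (Y y / m) fun j _ => ?_).trans_eq (by simp; field_simp)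
    rw [div_mul_eq_mul_div, mul_comm]
    exact div_le_div_of_nonneg_right (coord hY y j) m0.le⟩
  have b1 : b₀ ∈ Q := ⟨fun j => (m * X (Pi.single j 1))⁻¹, by
    rw [expand fun j => (m * X (Pi.single j 1))⁻¹]
    refine (Finset.le_sum_of_subadditive X (map_zero X).le (map_add_le_add X) _ _).trans
      ((sum_le_card_nsmul _ _ (1 / (m : ℝ)) fun j _ => le_of_eq ?_).trans_eq (by simp; field_simp))
    have := pos hX j
    rw [map_smul_eq_mul, Real.norm_of_nonneg (by positivity)]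
    field_simp, rfl⟩
  obtain ⟨⟨w, b⟩, ⟨hw, hb⟩, hmax⟩ := (s1.prod t1).exists_isMaxOn ⟨(w₀, b₀), w1, t3 b1⟩
    (f := fun z => ∑ j, ((z.1 j + w₀ j) ^ 2 * (z.2 j + b₀ j)) ^ (1 / 3 : ℝ))
    (continuous_finsetSum _ fun j _ =>
      Continuous.rpow_const (by fun_prop) fun _ => Or.inr (by norm_num)).continuousOn
  have W0 : ∀ j, 0 < w j + w₀ j := fun j => add_pos_of_nonneg_of_pos (hw.1 j) (w0 j)
  have B0 : ∀ j, 0 < b j + b₀ j := fun j => add_pos_of_nonneg_of_pos ((t0 hb).1 j) (b0 j)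
  set p : Fin m → ℝ := fun j => ((w j + w₀ j) ^ 2 * (b j + b₀ j)) ^ (1 / 3 : ℝ) with hp
  have p0 : ∀ j, 0 < p j := fun j => Real.rpow_pos_of_pos (mul_pos (pow_pos (W0 j) 2) (B0 j)) _
  have p3 : ∀ j, p j ^ 3 = (w j + w₀ j) ^ 2 * (b j + b₀ j) := fun j => by
    rw [hp, ← Real.rpow_natCast, ← Real.rpow_mul (mul_pos (pow_pos (W0 j) 2) (B0 j)).le]
    norm_num
  have kkt : ∀ w' ∈ S, ∀ b' ∈ T, ∑ j, (2 * (p j / (w j + w₀ j) * (w' j - w j)) +
      p j / (b j + b₀ j) * (b' j - b j)) / 3 ≤ 0 := fun w' hw' b' hb' => by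
    refine foc (g := fun t => ∑ j, ((w j + t * (w' j - w j) + w₀ j) ^ 2 *
      (b j + t * (b' j - b j) + b₀ j)) ^ (1 / 3 : ℝ)) (HasDerivAt.fun_sum fun j _ => ?_)
      fun t h1 h2 => ?_
    · have d : ∀ x y z : ℝ, HasDerivAt (fun t : ℝ => x + t * y + z) y 0 := fun x y z => by
        simpa using (((hasDerivAt_id (0 : ℝ)).mul_const y).const_add x).add_const z
      have := W0 j
      have := B0 j
      refine ((((d (w j) (w' j - w j) (w₀ j)).fun_pow 2).fun_mul (d (b j) (b' j - b j) (b₀ j))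
        ).rpow_const (p := 1 / 3) (Or.inl (by simp only [zero_mul, add_zero]; positivity))
        ).congr_deriv ?_
      simp only [zero_mul, add_zero]
      rw [Real.rpow_sub_one (by positivity)]
      simp only [hp]
      field_simp
      ring
    · simpa using hmax (a := (w + t • (w' - w), b + t • (b' - b)))
        ⟨s2.add_smul_sub_mem hw hw' ⟨h1.le, h2.le⟩, t2.add_smul_sub_mem hb hb' ⟨h1.le, h2.le⟩⟩
  obtain ⟨b', u1, u2⟩ := mem_closure_iff.1 hb (Set.univ.pi fun j => Set.Ioi (b j - b₀ j / 2))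
    (isOpen_set_pi Set.finite_univ fun _ _ => isOpen_Ioi) fun j _ => by simpa using b0 j
  obtain ⟨ι, _, c, z, c0, c1, c2, c3⟩ := mem_convexHull_iff_exists_fintype.1
    (convex_convexHull ℝ Q u2 (subset_convexHull ℝ Q b1) one_half_pos.le one_half_pos.le
      (add_halves 1))
  choose v v1 v2 using c2
  refine ⟨fun j => w j + w₀ j, p, ι, inferInstance, c, v, W0, p0, fun y => ?_, c0, c1, v1,
    fun j => ?_, ?_, fun u hu => ?_⟩
  · simp only [add_mul, sum_add_distrib]
    linarith [hw.2 y, w1.2 y]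
  · have e := congrFun c3 j
    simp only [v2, Finset.sum_apply, Pi.smul_apply, smul_eq_mul, Pi.add_apply] at e
    have : b j - b₀ j / 2 < b' j := u1 j trivial
    rw [e, p3, mul_div_assoc]
    exact mul_le_mul_of_nonneg_left (by linarith [show 0 ≤ b j from (t0 hb).1 j]) (sq_nonneg _)
  · obtain ⟨w', k1, k2⟩ := dual hY (a := fun j => p j / (w j + w₀ j))
      (fun k => (div_pos (p0 ⟨0, hm⟩) (W0 _)).ne' (congrFun k ⟨0, hm⟩))
      fun j => (div_pos (p0 j) (W0 j)).le
    have := kkt w' k1 b hb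
    simp only [sub_self, mul_zero, add_zero, ← sum_div, ← mul_sum, mul_sub, sum_sub_distrib] at this
    have k3 : ∑ j, p j / (w j + w₀ j) * w j ≤ ∑ j, p j := sum_le_sum fun j _ => by
      rw [div_mul_eq_mul_div, div_le_iff₀ (W0 j)]
      nlinarith [p0 j, w0 j]
    linarith
  · have := kkt w hw _ (t3 ⟨u, hu, rfl⟩)
    simp only [sub_self, mul_zero, zero_add, ← sum_div, mul_sub, sum_sub_distrib] at this
    have k3 : ∑ j, p j / (b j + b₀ j) * b j ≤ ∑ j, p j := sum_le_sum fun j _ => by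
      rw [div_mul_eq_mul_div, div_le_iff₀ (B0 j)]
      nlinarith [p0 j, b0 j]
    have k4 : ∑ j, u j ^ 2 / (p j / (w j + w₀ j)) ^ 2 = ∑ j, p j / (b j + b₀ j) * u j ^ 2 :=
      sum_congr rfl fun j _ => by
        have := W0 j
        have := B0 j
        have := p0 j
        field_simp
        rw [p3, mul_assoc]
    linarith

end Pool.Agent.MP_122bd4_an.Unc
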