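import Pool.Agent.MP_122bd4_an.Unc.Upper
import Pool.Agent.MP_122bd4_an.Round

/-! The example: sup of the `ℓ¹` norms of dyadic blocks, against a weighted `ℓ¹` norm. -/

open Finset
open scoped ENNReal Matrix

namespace Pool.Agent.MP_122bd4_an.Unc

variable {m : ℕ}

/-- the dyadic block of a coordinate -/
def bl (j : Fin m) : ℕ := Nat.log 2 (j + 1)

/-- the domain norm -/
noncomputable def exX (m : ℕ) : Seminorm ℝ (Fin m → ℝ) :=
  Seminorm.of (fun v => ‖fun i : Fin m => ∑ j with bl j = bl i, |v j|‖)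
    (fun v w => (pi_norm_le_iff_of_nonneg (by positivity)).2 fun i => by
      have h1 := norm_le_pi_norm (fun i : Fin m => ∑ j with bl j = bl i, |v j|) i
      have h2 := norm_le_pi_norm (fun i : Fin m => ∑ j with bl j = bl i, |w j|) i
      rw [Real.norm_of_nonneg (by positivity)] at h1 h2 ⊢
      exact ((sum_le_sum fun j _ => abs_add_le _ _).trans_eq sum_add_distrib).trans
        (add_le_add h1 h2))
    fun a v => by
      rw [← norm_norm a, ← norm_smul]
      congr 1
      ext i
      simp [abs_mul, mul_sum]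

/-- the target norm -/
noncomputable def exY (m : ℕ) : Seminorm ℝ (Fin m → ℝ) :=
  Seminorm.of (fun v => ∑ j, |v j| / 2 ^ bl j)
    (fun v w => (sum_le_sum fun j _ => by
      rw [← add_div]; gcongr; exact abs_add_le _ _).trans_eq sum_add_distrib)
    fun a v => by simp [abs_mul, mul_sum, mul_div_assoc]

theorem exX_apply (v : Fin m → ℝ) :
    exX m v = ‖fun i : Fin m => ∑ j with bl j = bl i, |v j|‖ := rfl

theorem exY_apply (v : Fin m → ℝ) : exY m v = ∑ j, |v j| / 2 ^ bl j := rfl

theorem blk_le (v : Fin m → ℝ) (i : ℕ) : ∑ j with bl j = i, |v j| ≤ exX m v := by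
  by_cases h : ∃ j : Fin m, bl j = i
  · obtain ⟨j, rfl⟩ := h
    exact (le_abs_self _).trans (norm_le_pi_norm (fun i : Fin m => ∑ j with bl j = bl i, |v j|) j)
  · rw [filter_eq_empty_iff.2 fun j _ k => h ⟨j, k⟩, sum_empty]
    exact apply_nonneg _ _

theorem abs_sgn {σ v : Fin m → ℝ} (h : ∀ j, σ j = 1 ∨ σ j = -1) (j : Fin m) :
    |σ j * v j| = |v j| := by
  rcases h j with k | k <;> simp [k]

theorem exX_unc : UncNorm (exX m) := by
  refine ⟨fun v h => funext fun j => abs_nonpos_iff.1 ?_, fun σ v h => ?_⟩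
  · exact (single_le_sum (f := fun j => |v j|) (fun _ _ => abs_nonneg _)
      (by simp)).trans ((blk_le v (bl j)).trans_eq h)
  · simp only [exX_apply, abs_sgn h]

theorem exY_unc : UncNorm (exY m) := by
  refine ⟨fun v h => funext fun j => ?_, fun σ v h => by simp only [exY_apply, abs_sgn h]⟩
  rw [exY_apply, sum_eq_zero_iff_of_nonneg fun j _ => by positivity] at h
  simpa using h j (mem_univ _)

theorem tail (v : Fin m → ℝ) (hv : exX m v ≤ 1) (k : ℕ) :
    ∑ j with ¬ bl j < k, |v j| / 2 ^ bl j ≤ 2 / 2 ^ k := by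
  rw [← sum_fiberwise_of_maps_to (t := Ico k (m + 1)) (g := bl) fun j hj => mem_Ico.2
    ⟨not_lt.1 (mem_filter.1 hj).2, (Nat.log_le_self _ _).trans_lt (by have := j.2; omega)⟩]
  refine (sum_le_sum fun i _ => ?_).trans ((geom_sum_Ico_le_of_lt_one (x := (1 / 2 : ℝ))
    (by norm_num) (by norm_num)).trans_eq (by rw [one_div_pow]; ring))
  rw [sum_congr rfl fun j hj => by rw [(mem_filter.1 hj).2], ← sum_div, one_div_pow]
  gcongr
  exact (sum_le_sum_of_subset_of_nonneg (fun j hj => by simpa using (mem_filter.1 hj).2)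
    fun _ _ _ => abs_nonneg _).trans ((blk_le v i).trans hv)

theorem exStages {ι : Type} [Fintype ι] (v : ι → Fin m → ℝ) (hv : ∀ l, exX m (v l) ≤ 1) (k : ℕ) :
    ∀ x : ι → ℝ, (∀ l, |x l| ≤ 1) → #{l | |x l| < 1} < 2 ^ k → ∃ ε : ι → ℝ,
      (∀ l, ε l = 1 ∨ ε l = -1) ∧ exY m (fun j => ∑ l, (ε l - x l) * v l j) ≤ 8 * k := by
  classical
  induction k with
  | zero =>
    intro x hx hc
    refine ⟨x, fun l => (abs_eq zero_le_one).1 ((hx l).eq_of_not_lt fun h => ?_),
      by simp [exY_apply]⟩
    have : #{l | |x l| < 1} ≠ 0 := card_ne_zero_of_mem (a := l) (by simpa using h)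
    omega
  | succ k ih =>
    intro x hx hc
    obtain ⟨y, y1, y2, y3, y4⟩ := round v {j | bl j < k} x hx
    have hR : #{j : Fin m | bl j < k} ≤ #(range (2 ^ k - 1)) :=
      card_le_card_of_injOn Fin.val (fun j hj => by
        have := Nat.lt_pow_of_log_lt one_lt_two (mem_filter.1 hj).2
        simp only [coe_range, Set.mem_Iio]
        omega) Fin.val_injective.injOn
    obtain ⟨ε, e1, e2⟩ := ih y y1 (by
      have := Nat.two_pow_pos k
      rw [card_range] at hR
      omega)
    refine ⟨ε, e1, ?_⟩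
    have e : (fun j => ∑ l, (ε l - x l) * v l j) =
        (fun j => ∑ l, (ε l - y l) * v l j) + fun j => ∑ l, (y l - x l) * v l j := by
      ext j
      rw [Pi.add_apply, ← sum_add_distrib]
      exact sum_congr rfl fun l _ => by ring
    have c : exY m (fun j => ∑ l, (y l - x l) * v l j) ≤ 8 := by
      rw [exY_apply, ← sum_filter_add_sum_filter_not univ fun j => bl j < k,
        sum_eq_zero fun j hj => by rw [y3 j hj]; simp, zero_add]
      calc _ ≤ ∑ j with ¬ bl j < k, ∑ l with |x l| < 1, 2 * (|v l j| / 2 ^ bl j) := by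
            refine sum_le_sum fun j _ => ?_
            simp only [← mul_div_assoc, ← sum_div]
            gcongr
            rw [← sum_subset (subset_univ {l | |x l| < 1}) fun l _ hl => by
              rw [y2 l (by simpa using hl)]; simp]
            refine (abs_sum_le_sum_abs _ _).trans (sum_le_sum fun l _ => ?_)
            rw [abs_mul]
            exact mul_le_mul_of_nonneg_right ((abs_sub _ _).trans (by linarith [y1 l, hx l]))
              (abs_nonneg _)
        _ ≤ #{l | |x l| < 1} • (2 * (2 / 2 ^ k) : ℝ) := by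
            rw [sum_comm]
            refine sum_le_card_nsmul _ _ _ fun l _ => ?_
            rw [← mul_sum]
            exact mul_le_mul_of_nonneg_left (tail _ (hv l) k) two_pos.le
        _ ≤ 2 ^ (k + 1) * (2 * (2 / 2 ^ k) : ℝ) := by
            rw [nsmul_eq_mul]
            gcongr
            exact_mod_cast hc.le
        _ = 8 := by field_simp; ring
    rw [e]
    push_cast
    linarith [map_add_le_add (exY m) (fun j => ∑ l, (ε l - y l) * v l j)
      fun j => ∑ l, (y l - x l) * v l j]

theorem ex_upper (hm : 2 ≤ m) : bal (exX m) (exY m) ≤ ENNReal.ofReal (24 * Real.log m) := by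
  refine bal_le fun n v hv => ?_
  obtain ⟨y, y1, -, y3, y4⟩ := round v univ 0 (by simp)
  obtain ⟨ε, e1, e2⟩ := exStages v hv (Nat.log 2 m + 1) y y1
    (y4.trans_lt (by simpa using Nat.lt_pow_succ_log_self one_lt_two m))
  simp only [Pi.zero_apply, sub_zero, mem_univ, forall_const] at y3
  simp only [sub_mul, sum_sub_distrib, y3, sub_zero] at e2
  refine ⟨ε, e1, e2.trans ?_⟩
  have l2 := Real.log_two_gt_d9
  have lm : Real.log 2 ≤ Real.log m := Real.log_le_log two_pos (by exact_mod_cast hm)
  have h : (2 : ℝ) ^ Nat.log 2 m ≤ m := by exact_mod_cast Nat.pow_log_le_self 2 (by omega)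
  have := Real.log_le_log (by positivity) h
  rw [Real.log_pow] at this
  push_cast
  nlinarith [(Nat.log 2 m).cast_nonneg (α := ℝ)]

theorem one_le {K : ℕ} (n : ℕ) {a : ℝ} (ha : 0 ≤ a) :
    ∑ i : Fin K, (if n = i then a else 0) ≤ a := by
  by_cases h : n < K
  · have : ∀ i : Fin K, n = i ↔ ⟨n, h⟩ = i := fun i => by simp [Fin.ext_iff]
    simp [this]
  · rwa [sum_eq_zero fun i _ => if_neg (by have := i.2; omega)]

theorem ex_lower (hm : 2 ≤ m) {A : Matrix (Fin m) (Fin m) ℝ} (hA : A.PosDef)
    (h : ∀ v, hn A v ≤ exX m v) :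
    ENNReal.ofReal (Real.log m * √(Real.log m) / 3) ≤ bal (hn A) (exY m) := by
  set K := Nat.log 2 (m + 1) with hK
  have K1 : 1 ≤ K := Nat.le_log_of_pow_le one_lt_two (by omega)
  have K2 : 2 ^ K ≤ m + 1 := Nat.pow_log_le_self 2 (by omega)
  have cnt : ∀ i : Fin K, 2 ^ (i : ℕ) ≤ #{j : Fin m | bl j = i} := fun i => by
    have h1 : 2 ^ (i + 1 : ℕ) ≤ 2 ^ K := Nat.pow_le_pow_right two_pos i.2
    have h2 := Nat.two_pow_pos i
    rw [pow_succ] at h1
    simpa using card_le_card_of_injOn (s := (univ : Finset (Fin (2 ^ (i : ℕ)))))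
      (t := {j : Fin m | bl j = i}) (fun t => ⟨2 ^ (i : ℕ) - 1 + t, by have := t.2; omega⟩)
      (fun t _ => by
        have := t.2
        simp only [coe_filter, mem_univ, true_and, Set.mem_ofPred_eq, bl]
        exact Nat.log_eq_of_pow_le_of_lt_pow (by omega) (by rw [pow_succ]; omega))
      fun t _ t' _ e => by simpa [Fin.ext_iff] using e
  have d0 : ∀ j, 0 < A j j := fun j => hA.diag_pos
  choose t t1 t2 using fun i : Fin K => exists_max_image {j : Fin m | bl j = i} (fun j => A j j)
    (card_pos.1 ((Nat.two_pow_pos i).trans_le (cnt i)))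
  have tr : ∑ i, A (t i) (t i) ≤ 1 := by
    have k : ∀ σ : Fin K → ℤˣ, ∑ a, ∑ b, A (t a) (t b) * (((σ a : ℤ) : ℝ) * ((σ b : ℤ) : ℝ)) ≤ 1 :=
      fun σ => by
        have h1 := (h (∑ a, ((σ a : ℤ) : ℝ) • Pi.single (t a) 1)).trans
          ((pi_norm_le_iff_of_nonneg zero_le_one).2 fun i => by
            rw [Real.norm_of_nonneg (by positivity)]
            refine le_trans ?_ (one_le (K := K) (bl i) zero_le_one)
            simp only [Finset.sum_apply]
            refine (sum_le_sum fun j _ => abs_sum_le_sum_abs _ _).trans (sum_comm.trans_le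
              (sum_le_sum fun a _ => ?_))
            rcases Int.units_eq_one_or (σ a) with e | e <;>
              simp [e, Pi.single_apply, apply_ite abs, (mem_filter.1 (t1 a)).2, eq_comm])
        rw [hn, Real.sqrt_le_one] at h1
        refine le_of_eq_of_le ?_ h1
        simp only [Matrix.mulVec_sum, sum_dotProduct, dotProduct_sum, Matrix.mulVec_smul,
          smul_dotProduct, dotProduct_smul, Matrix.mulVec_single_one, single_one_dotProduct,
          smul_eq_mul, Matrix.col_apply, mul_sum]
        rw [sum_comm]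
        exact sum_congr rfl fun a _ => sum_congr rfl fun b _ => by ring
    have := sum_le_card_nsmul univ _ _ fun σ _ => k σ
    rw [sum_comm] at this
    simp only [sum_comm (s := (univ : Finset (Fin K → ℤˣ))), ← mul_sum, sgn_sum] at this
    simpa [← sum_mul] using this
  refine le_bal (fun l => (√(A l l))⁻¹ • Pi.single l 1) (fun l => ?_) fun ε hε => ?_
  · have := d0 l
    simp [hn, Matrix.mulVec_smul, ← mul_assoc, ← mul_inv, this.le, this.ne']
  · have e : exY m (fun j => ∑ l, ε l * ((√(A l l))⁻¹ • Pi.single l 1 : Fin m → ℝ) j) =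
        ∑ j, (√(A j j))⁻¹ / 2 ^ bl j := by
      rw [exY_apply]
      refine sum_congr rfl fun j _ => ?_
      rcases hε j with k | k <;> simp [Pi.single_apply, k, abs_of_nonneg]
    set s := √(K : ℝ) with hs
    have K0 : (1 : ℝ) ≤ K := by exact_mod_cast K1
    have s0 : 0 < s := Real.sqrt_pos.2 (by linarith)
    have s2 : s ^ 2 = K := Real.sq_sqrt (by linarith)
    have b1 : ∀ i : Fin K, s * (3 - K * A (t i) (t i)) / 2 ≤
        ∑ j, if bl j = i then (√(A j j))⁻¹ / 2 ^ bl j else 0 := fun i => by
      have q0 := Real.sqrt_pos.2 (d0 (t i))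
      have q2 := Real.sq_sqrt (d0 (t i)).le
      rw [← sum_filter]
      refine le_trans ?_ (card_nsmul_le_sum _ _ ((√(A (t i) (t i)))⁻¹ / 2 ^ (i : ℕ)) fun j hj => by
        rw [(mem_filter.1 hj).2]
        have := d0 j
        gcongr
        exact t2 i j hj)
      have c : (2 : ℝ) ^ (i : ℕ) ≤ #{j : Fin m | bl j = i} := by exact_mod_cast cnt i
      rw [nsmul_eq_mul]
      refine le_trans ?_ (mul_le_mul_of_nonneg_right c (by positivity))
      rw [mul_div_cancel₀ _ (by positivity), ← s2]
      nth_rw 1 [← q2]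
      generalize √(A (t i) (t i)) = q at q0
      rw [← one_div, le_div_iff₀ q0]
      nlinarith [mul_nonneg (sq_nonneg (s * q - 1)) (show 0 ≤ s * q + 2 by positivity)]
    have b2 := (sum_le_sum fun i (_ : i ∈ univ) => b1 i).trans (sum_comm.trans_le
      (sum_le_sum fun j _ => one_le (bl j) (by positivity)))
    simp only [← sum_div, ← mul_sum, sum_sub_distrib, sum_const, card_univ, Fintype.card_fin,
      nsmul_eq_mul] at b2
    have lm : Real.log m ≤ 2 * K := by
      have h : (m : ℝ) ≤ 2 ^ (K + 1) := by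
        exact_mod_cast (Nat.le_succ m).trans (Nat.lt_pow_succ_log_self one_lt_two (m + 1)).le
      have := Real.log_le_log (by positivity) h
      rw [Real.log_pow] at this
      push_cast at this
      nlinarith [Real.log_two_lt_d9]
    have a : √(Real.log m) ≤ 3 / 2 * s := Real.sqrt_le_iff.2 ⟨by positivity, by nlinarith⟩
    have c := mul_le_mul lm a (Real.sqrt_nonneg _) (by positivity)
    rw [e]
    nlinarith [mul_le_mul_of_nonneg_left tr (show 0 ≤ s * K by positivity)]

end Pool.Agent.MP_122bd4_an.Unc
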