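import Mathlib

/-! The splitting lemma: a density that moves little under the shifts `6 • v i` gives signs. -/

open MeasureTheory Finset

namespace Pool.Agent.MP_122bd4_an.Unc

variable {m : ℕ}

theorem minmax (a b a' b' : ℝ) : |max a' b' / 2 - max a b / 2| + |min a' b' / 2 - min a b / 2| ≤
    (|a' - a| + |b' - b|) / 2 := by
  have h1 := le_abs_self (a' - a)
  have h2 := neg_abs_le (a' - a)
  have h3 := le_abs_self (b' - b)
  have h4 := neg_abs_le (b' - b)
  rcases le_total a b with h | h <;> rcases le_total a' b' with h' | h' <;>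
    simp only [max_eq_left, max_eq_right, min_eq_left, min_eq_right, h, h'] <;>
    rcases abs_cases (b' / 2 - b / 2) with k1 | k1 <;>
    rcases abs_cases (a' / 2 - a / 2) with k2 | k2 <;>
    rcases abs_cases (b' / 2 - a / 2) with k3 | k3 <;>
    rcases abs_cases (a' / 2 - b / 2) with k4 | k4 <;> linarith

theorem base {L : Type} [Fintype L] [DecidableEq L] (P : L → (Fin m → ℝ) → ℝ) (M : Fin m → ℝ)
    (C : Set ((Fin m → ℝ) × (L → ℝ))) (c1 : ∀ l, Continuous (P l))
    (c2 : ∀ l, HasCompactSupport (P l)) (c3 : ∀ l x, 0 ≤ P l x) (c4 : ∑ l, ∫ x, P l x = 1)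
    (c5 : ∀ f : (Fin m → ℝ) →L[ℝ] ℝ, f M = ∑ l, ∫ x, P l x * f x) (k1 : Convex ℝ C)
    (k2 : IsClosed C) (k3 : ∀ l x, P l x ≠ 0 → (x, Pi.single l 1) ∈ C) :
    (M, fun l => ∫ x, P l x) ∈ C := by
  by_contra h
  obtain ⟨f, u, h1, h2⟩ := geometric_hahn_banach_point_closed k1 k2 h
  set g := f.comp (ContinuousLinearMap.inl ℝ _ _) with hg
  have i1 : ∀ l, Integrable (P l) := fun l => (c1 l).integrable_of_hasCompactSupport (c2 l)
  have i2 : ∀ l, Integrable fun x => P l x * g x := fun l =>
    ((c1 l).mul g.continuous).integrable_of_hasCompactSupport (c2 l).mul_right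
  have e : (M, fun l => ∫ x, P l x) = (M, 0) +
      ∑ l, (∫ x, P l x) • ((0 : Fin m → ℝ), (Pi.single l 1 : L → ℝ)) := by
    ext j
    · simp [Prod.fst_sum]
    · simp [Prod.snd_sum, Finset.sum_apply, Pi.single_apply]
  rw [e, map_add, map_sum, show f (M, 0) = g M from rfl, c5 g, ← sum_add_distrib] at h1
  refine h1.not_ge ?_
  rw [show u = ∑ l, u * ∫ x, P l x by rw [← mul_sum, c4, mul_one]]
  refine sum_le_sum fun l _ => ?_
  rw [map_smul, smul_eq_mul, ← integral_mul_const, ← integral_add (i2 l) ((i1 l).mul_const _),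
    ← integral_const_mul]
  refine integral_mono ((i1 l).const_mul _) ((i2 l).add ((i1 l).mul_const _)) fun x => ?_
  by_cases hx : P l x = 0
  · simp [hx]
  have := h2 _ (k3 l x hx)
  rw [show (x, (Pi.single l 1 : L → ℝ)) = (x, 0) + (0, Pi.single l 1) by simp, map_add] at this
  have := mul_le_mul_of_nonneg_left this.le (c3 l x)
  change u * P l x ≤ P l x * f (x, 0) + _
  linarith

theorem split (n : ℕ) : ∀ (L : Type) [Fintype L] [DecidableEq L] (P : L → (Fin m → ℝ) → ℝ)
    (M : Fin m → ℝ) (v : Fin n → Fin m → ℝ) (C : Set ((Fin m → ℝ) × (L → ℝ))),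
    (∀ l, Continuous (P l)) → (∀ l, HasCompactSupport (P l)) → (∀ l x, 0 ≤ P l x) →
    ∑ l, ∫ x, P l x = 1 → (∀ f : (Fin m → ℝ) →L[ℝ] ℝ, f M = ∑ l, ∫ x, P l x * f x) →
    (∀ i, ∑ l, ∫ x, |P l (x + (6 : ℝ) • v i) - P l x| ≤ 2 / 3) → Convex ℝ C → IsClosed C →
    (∀ l x, P l x ≠ 0 → (x, Pi.single l 1) ∈ C) →
    ∃ ε : Fin n → ℝ, (∀ i, ε i = 1 ∨ ε i = -1) ∧ (M + ∑ i, ε i • v i, fun l => ∫ x, P l x) ∈ C := by
  induction n with
  | zero =>
    intro L _ _ P M v C c1 c2 c3 c4 c5 _ k1 k2 k3
    exact ⟨0, fun i => i.elim0, by simpa using base P M C c1 c2 c3 c4 c5 k1 k2 k3⟩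
  | succ n ih =>
    intro L _ _ P M v C c1 c2 c3 c4 c5 c6 k1 k2 k3
    set w : Fin m → ℝ := (3 : ℝ) • v 0 with hw
    have s1 : ∀ l u, Continuous fun x => P l (x + u) := fun l u => (c1 l).comp (by fun_prop)
    have s2 : ∀ l u, HasCompactSupport fun x => P l (x + u) := fun l u =>
      (c2 l).comp_homeomorph (Homeomorph.addRight u)
    have s3 : ∀ l u, Integrable fun x => P l (x + u) := fun l u =>
      (s1 l u).integrable_of_hasCompactSupport (s2 l u)
    have s4 : ∀ l u, ∫ x, P l (x + u) = ∫ x, P l x := fun l u => integral_add_right_eq_self _ u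
    set Q : L ⊕ L → (Fin m → ℝ) → ℝ := Sum.elim
      (fun l x => max (P l (x + -w)) (P l (x + w)) / 2)
      (fun l x => min (P l (x + -w)) (P l (x + w)) / 2) with hQ
    have q1 : ∀ l, Continuous (Q l) := by
      rintro (l | l)
      exacts [((s1 l _).max (s1 l _)).div_const _, ((s1 l _).min (s1 l _)).div_const _]
    have q3 : ∀ l x, 0 ≤ Q l x := by
      rintro (l | l) x
      exacts [div_nonneg (le_max_of_le_left (c3 _ _)) two_pos.le,
        div_nonneg (le_min (c3 _ _) (c3 _ _)) two_pos.le]
    have qs : ∀ l x, Q (.inl l) x + Q (.inr l) x = (P l (x + -w) + P l (x + w)) / 2 :=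
      fun l x => by simp only [hQ, Sum.elim_inl, Sum.elim_inr, ← add_div, max_add_min]
    have q2 : ∀ l, HasCompactSupport (Q l) := by
      rintro (l | l) <;> refine ((s2 l (-w)).add (s2 l w)).mono fun x hx h => hx ?_ <;>
        have := qs l x <;> have := q3 (.inl l) x <;> have := q3 (.inr l) x <;>
        simp only [Pi.add_apply] at h <;> linarith
    have qi : ∀ l, Integrable (Q l) := fun l => (q1 l).integrable_of_hasCompactSupport (q2 l)
    have qm : ∀ l, (∫ x, Q (.inl l) x) + ∫ x, Q (.inr l) x = ∫ x, P l x := fun l => by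
      rw [← integral_add (qi _) (qi _)]
      simp only [qs]
      rw [integral_div, integral_add (s3 _ _) (s3 _ _), s4, s4]
      ring
    set D : Set ((Fin m → ℝ) × (L ⊕ L → ℝ)) := {z | ∃ a : ℝ, 0 ≤ ∑ l, z.2 (.inr l) ∧
      |a| ≤ 1 - ∑ l, z.2 (.inr l) ∧
      (z.1 + (a + ∑ l, z.2 (.inr l)) • w, fun l => z.2 (.inl l) + z.2 (.inr l)) ∈ C ∧
      (z.1 + (a - ∑ l, z.2 (.inr l)) • w, fun l => z.2 (.inl l) + z.2 (.inr l)) ∈ C} with hD
    obtain ⟨ε, e1, a, -, a1, a2, a3⟩ := ih (L ⊕ L) Q M (fun i => v i.succ) D q1 q2 q3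
      (by rw [Fintype.sum_sum_type, ← sum_add_distrib]; simp only [qm, c4])
      (fun f => by
        have j1 : ∀ l, Integrable fun x => Q l x * f x := fun l =>
          ((q1 l).mul f.continuous).integrable_of_hasCompactSupport (q2 l).mul_right
        have j2 : ∀ l u, Integrable fun x => P l (x + u) * f x := fun l u =>
          ((s1 l u).mul f.continuous).integrable_of_hasCompactSupport (s2 l u).mul_right
        have j3 : ∀ l u, ∫ x, P l (x + u) * f x = (∫ x, P l x * f x) - (∫ x, P l x) * f u :=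
          fun l u => by
            rw [← integral_add_right_eq_self (fun x => P l x * f x) u, ← s4 l u,
              ← integral_mul_const]
            simp only [map_add, mul_add]
            rw [integral_add (j2 l u) ((s3 l u).mul_const _)]
            ring
        rw [Fintype.sum_sum_type, ← sum_add_distrib, c5 f]
        refine sum_congr rfl fun l _ => ?_
        rw [← integral_add (j1 _) (j1 _)]
        simp only [← add_mul, qs, div_mul_eq_mul_div]
        simp only [add_mul]
        rw [integral_div, integral_add (j2 _ _) (j2 _ _), j3, j3, map_neg]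
        ring)
      (fun i => by
        refine le_trans ?_ (c6 i.succ)
        rw [Fintype.sum_sum_type, ← sum_add_distrib]
        refine sum_le_sum fun l _ => ?_
        generalize (6 : ℝ) • v i.succ = u
        have j1 : ∀ l, Integrable fun x => |Q l (x + u) - Q l x| := fun l =>
          (((qi l).comp_add_right u).sub (qi l)).abs
        have j2 : ∀ y, Integrable fun x => |P l (x + y + u) - P l (x + y)| := fun y =>
          (((s3 l u).comp_add_right y).sub (s3 l y)).abs
        have j3 : ∀ y, ∫ x, |P l (x + y + u) - P l (x + y)| = ∫ x, |P l (x + u) - P l x| :=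
          fun y => integral_add_right_eq_self (fun x => |P l (x + u) - P l x|) y
        rw [← integral_add (j1 _) (j1 _)]
        refine (integral_mono ((j1 _).add (j1 _)) (((j2 (-w)).add (j2 w)).div_const 2)
          fun x => ?_).trans_eq ?_
        · simp only [hQ, Sum.elim_inl, Sum.elim_inr, Pi.add_apply, add_right_comm x u]
          exact minmax _ _ _ _
        · simp only [Pi.add_apply]
          rw [integral_div, integral_add (j2 _) (j2 _), j3, j3]
          ring)
      (by
        rintro z ⟨a, a0, a1, a2, a3⟩ z' ⟨b, b0, b1, b2, b3⟩ α β h1 h2 h3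
        have es : ∑ l, (α • z + β • z').2 (.inr l) =
            α * ∑ l, z.2 (.inr l) + β * ∑ l, z'.2 (.inr l) := by
          simp [mul_sum, sum_add_distrib]
        refine ⟨α * a + β * b, by rw [es]; positivity, ?_, ?_, ?_⟩
        · rw [es]
          have := abs_add_le (α * a) (β * b)
          rw [abs_mul, abs_mul, abs_of_nonneg h1, abs_of_nonneg h2] at this
          nlinarith [mul_le_mul_of_nonneg_left a1 h1, mul_le_mul_of_nonneg_left b1 h2]
        · convert k1 a2 b2 h1 h2 h3 using 1
          rw [es]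
          ext j <;> simp <;> ring
        · convert k1 a3 b3 h1 h2 h3 using 1
          rw [es]
          ext j <;> simp <;> ring)
      (by
        have := isClosedMap_snd_of_compactSpace
          {y : Set.Icc (-1 : ℝ) 1 × ((Fin m → ℝ) × (L ⊕ L → ℝ)) | 0 ≤ ∑ l, y.2.2 (.inr l) ∧
            |y.1.1| ≤ 1 - ∑ l, y.2.2 (.inr l) ∧
            (y.2.1 + (y.1.1 + ∑ l, y.2.2 (.inr l)) • w,
              fun l => y.2.2 (.inl l) + y.2.2 (.inr l)) ∈ C ∧
            (y.2.1 + (y.1.1 - ∑ l, y.2.2 (.inr l)) • w,
              fun l => y.2.2 (.inl l) + y.2.2 (.inr l)) ∈ C}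
          (by
            refine IsClosed.and (isClosed_le (by fun_prop) (by fun_prop))
              (IsClosed.and (isClosed_le (by fun_prop) (by fun_prop)) (IsClosed.and ?_ ?_)) <;>
            exact k2.preimage (by fun_prop))
        convert this using 1
        ext z
        exact ⟨fun ⟨a, a0, a1, a2⟩ => ⟨(⟨a, abs_le.1 (by linarith)⟩, z), ⟨a0, a1, a2⟩, rfl⟩,
          fun ⟨y, h, e⟩ => ⟨y.1.1, e ▸ h⟩⟩)
      (by
        rintro (l | l) x hx
        · have e : (fun l' => (Pi.single (Sum.inl l) 1 : L ⊕ L → ℝ) (.inl l')) = Pi.single l 1 := by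
            ext l'; simp [Pi.single_apply]
          by_cases h : P l (x + w) = 0
          · have h' : P l (x + -w) ≠ 0 := fun h' => hx (by simp [hQ, h, h'])
            exact ⟨-1, by simp, by simp, by simpa [e] using k3 l _ h', by simpa [e] using k3 l _ h'⟩
          · exact ⟨1, by simp, by simp, by simpa [e] using k3 l _ h, by simpa [e] using k3 l _ h⟩
        · have e : (fun l' => (Pi.single (Sum.inr l) 1 : L ⊕ L → ℝ) (.inr l')) = Pi.single l 1 := by
            ext l'; simp [Pi.single_apply]
          have e' : ∑ l', (Pi.single (Sum.inr l) 1 : L ⊕ L → ℝ) (.inr l') = 1 := by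
            simp [Pi.single_apply]
          have h : P l (x + w) ≠ 0 := fun h => hx (by simp [hQ, h, c3])
          have h' : P l (x + -w) ≠ 0 := fun h => hx (by simp [hQ, h, c3])
          exact ⟨0, by simp [e'], by simp [e'], by simpa [e, e'] using k3 l _ h,
            by simpa [e, e'] using k3 l _ h'⟩)
    simp only [qm] at a1 a2 a3
    have ht : 1 / 3 ≤ ∑ l, ∫ x, Q (.inr l) x := by
      have : ∀ l, ∫ x, Q (.inr l) x =
          (∫ x, P l x) / 2 - (∫ x, |P l (x + (6 : ℝ) • v 0) - P l x|) / 4 := fun l => by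
        rw [← integral_add_right_eq_self (fun x => |P l (x + (6 : ℝ) • v 0) - P l x|) (-w)]
        have e : ∀ x, x + -w + (6 : ℝ) • v 0 = x + w := fun x => by rw [hw]; module
        have e' : ∀ x, Q (.inr l) x =
            (P l (x + -w) + P l (x + w) - |P l (x + w) - P l (x + -w)|) / 4 := fun x => by
          simp only [hQ, Sum.elim_inr]
          rcases le_total (P l (x + -w)) (P l (x + w)) with h | h
          · rw [min_eq_left h, abs_of_nonneg (sub_nonneg.2 h)]; ring
          · rw [min_eq_right h, abs_of_nonpos (sub_nonpos.2 h)]; ring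
        simp only [e, e']
        have j1 : Integrable fun x => P l (x + -w) + P l (x + w) := (s3 _ _).add (s3 _ _)
        have j2 : Integrable fun x => |P l (x + w) - P l (x + -w)| := ((s3 _ _).sub (s3 _ _)).abs
        rw [integral_div, integral_sub j1 j2, integral_add (s3 _ _) (s3 _ _), s4, s4]
        ring
      simp only [this, sum_sub_distrib, ← sum_div, c4]
      linarith [c6 0]
    generalize ∑ l, ∫ x, Q (.inr l) x = t at a1 a2 a3 ht
    have cv : Convex ℝ {s : ℝ | (M + ∑ i, ε i • v i.succ + s • w, fun l => ∫ x, P l x) ∈ C} := by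
      intro s hs s' hs' α β h1 h2 h3
      obtain rfl : β = 1 - α := by linarith
      change _ ∈ C
      convert k1 hs hs' h1 h2 h3 using 1
      ext j <;> simp <;> ring
    have fin : ∀ σ : ℝ, σ = 1 ∨ σ = -1 → a - t ≤ σ / 3 → σ / 3 ≤ a + t →
        ∃ ε : Fin (n + 1) → ℝ, (∀ i, ε i = 1 ∨ ε i = -1) ∧
          (M + ∑ i, ε i • v i, fun l => ∫ x, P l x) ∈ C := fun σ h0 h1 h2 => by
      refine ⟨Fin.cons σ ε, Fin.cases h0 e1, ?_⟩
      have : _ ∈ C := cv.ordConnected.out a3 a2 ⟨h1, h2⟩
      convert this using 2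
      simp only [Fin.sum_univ_succ, Fin.cons_zero, Fin.cons_succ, hw]
      module
    rcases abs_cases a with h | h
    · exact fin 1 (Or.inl rfl) (by linarith) (by linarith)
    · exact fin (-1) (Or.inr rfl) (by linarith) (by linarith)

end Pool.Agent.MP_122bd4_an.Unc
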