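import Pool.Agent.MP_122bd4_an.Unc.Komlos
import Pool.Agent.MP_122bd4_an.Unc.Block
import Pool.Agent.MP_122bd4_an.Unc.Opt

/-! The upper bound for unconditional norms. -/

open Finset
open scoped ENNReal Matrix

namespace Pool.Agent.MP_122bd4_an.Unc

variable {m : ℕ} {X Y : Seminorm ℝ (Fin m → ℝ)}

theorem le_bal {N N' : (Fin m → ℝ) → ℝ} {ι : Type} [Fintype ι] (v : ι → Fin m → ℝ)
    (hv : ∀ l, N (v l) ≤ 1) {x : ℝ}
    (h : ∀ ε : ι → ℝ, (∀ l, ε l = 1 ∨ ε l = -1) → x ≤ N' fun j => ∑ l, ε l * v l j) :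
    ENNReal.ofReal x ≤ bal N N' := by
  set e := Fintype.equivFin ι
  refine le_iSup_of_le _ (le_iSup₂_of_le (fun l => v (e.symm l)) (fun l => hv _)
    (le_iInf₂ fun ε hε => ENNReal.ofReal_le_ofReal ?_))
  rw [← e.sum_comp]
  convert h (fun l => ε (e l)) fun l => hε _ using 2
  ext j
  simp [Finset.sum_apply]

theorem bal_le {N N' : (Fin m → ℝ) → ℝ} {x : ℝ}
    (h : ∀ (n : ℕ) (v : Fin n → Fin m → ℝ), (∀ l, N (v l) ≤ 1) →
      ∃ ε : Fin n → ℝ, (∀ l, ε l = 1 ∨ ε l = -1) ∧ N' (fun j => ∑ l, ε l * v l j) ≤ x) :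
    bal N N' ≤ ENNReal.ofReal x := by
  refine iSup_le fun n => iSup₂_le fun v hv => ?_
  obtain ⟨ε, e1, e2⟩ := h n v hv
  refine iInf₂_le_of_le ε e1 (ENNReal.ofReal_le_ofReal ?_)
  convert e2 using 2
  ext j
  simp [Finset.sum_apply]

/-- A family in the unit ball of `X`, supported in `T`, with large weighted sums on `T`. -/
def Gm (X : Seminorm ℝ (Fin m → ℝ)) (W : Fin m → ℝ) (T : Finset (Fin m)) (x : ℝ) : Prop :=
  ∃ (κ : Type) (_ : Fintype κ) (u : κ → Fin m → ℝ), (∀ l, X (u l) ≤ 1) ∧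
    (∀ l, ∀ j ∉ T, u l j = 0) ∧ ∀ ε : κ → ℝ, (∀ l, ε l = 1 ∨ ε l = -1) →
      x ≤ ∑ j ∈ T, W j * |∑ l, ε l * u l j|

theorem Gm.empty (W : Fin m → ℝ) : Gm X W ∅ 0 :=
  ⟨Empty, inferInstance, Empty.elim, fun l => l.elim, fun l => l.elim, fun _ _ => by simp⟩

theorem Gm.union {W : Fin m → ℝ} {T T' : Finset (Fin m)} {x x' : ℝ} (d : Disjoint T T')
    (h : Gm X W T x) (h' : Gm X W T' x') : Gm X W (T ∪ T') (x + x') := by
  obtain ⟨κ, _, u, u1, u2, u3⟩ := h
  obtain ⟨κ', _, u', v1, v2, v3⟩ := h'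
  refine ⟨κ ⊕ κ', inferInstance, Sum.elim u u', ?_, ?_, fun ε hε => ?_⟩
  · rintro (l | l)
    exacts [u1 l, v1 l]
  · rintro (l | l) j hj
    exacts [u2 l j fun k => hj (mem_union_left _ k), v2 l j fun k => hj (mem_union_right _ k)]
  · rw [sum_union d]
    refine add_le_add ((u3 _ fun l => hε (.inl l)).trans_eq (sum_congr rfl fun j hj => ?_))
      ((v3 _ fun l => hε (.inr l)).trans_eq (sum_congr rfl fun j hj => ?_))
    · simp [v2 _ j (disjoint_left.1 d hj)]
    · simp [u2 _ j (disjoint_right.1 d hj)]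

theorem sgn_sum {J : Type} [Fintype J] [DecidableEq J] (a b : J) :
    ∑ σ : J → ℤˣ, ((σ a : ℤ) : ℝ) * ((σ b : ℤ) : ℝ) = if a = b then 2 ^ Fintype.card J else 0 := by
  split_ifs with h
  · simp [h, ← Int.cast_mul, ← Units.val_mul]
  · have := Equiv.sum_comp (Equiv.mulLeft (Pi.mulSingle a (-1) : J → ℤˣ))
      fun σ : J → ℤˣ => ((σ a : ℤ) : ℝ) * ((σ b : ℤ) : ℝ)
    simp [Pi.mulSingle_eq_of_ne' h] at this
    linarith

theorem Gm.level (hX : UncNorm X) {W p : Fin m → ℝ} {ι : Type} [Fintype ι] {c : ι → ℝ}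
    {v : ι → Fin m → ℝ} (W0 : ∀ j, 0 < W j) (c0 : ∀ i, 0 ≤ c i) (c1 : ∑ i, c i = 1)
    (v1 : ∀ i, X (v i) ≤ 1) (hp : ∀ j, p j ^ 3 / 4 ≤ W j ^ 2 * ∑ i, c i * v i j ^ 2)
    (T : Finset (Fin m)) {θ q : ℝ} (θ0 : 0 < θ) (hT : ∀ j ∈ T, θ ≤ p j) (q0 : 0 ≤ q)
    (hq : q ^ 2 = T.card * θ) : Gm X W T (q ^ 3 / 84) := by
  rcases T.eq_empty_or_nonempty with rfl | hne
  · obtain rfl : q = 0 := by simpa using hq
    simpa using Gm.empty W
  have := hne.to_subtype
  have k0 : (0 : ℝ) < T.card := by exact_mod_cast hne.card_pos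
  have q1 : 0 < q := q0.lt_of_ne' fun h => by
    rw [h] at hq
    nlinarith [mul_pos k0 θ0]
  obtain ⟨f, S, h⟩ := block (J := T) (Ω := ι × (T → ℤˣ)) (fun ω => c ω.1 / 2 ^ Fintype.card T)
    (fun ω => div_nonneg (c0 _) (by positivity))
    (by simp [Fintype.sum_prod_type, ← mul_sum, ← sum_div, c1])
    (fun ω a => W a * (((ω.2 a : ℤ) : ℝ) * v ω.1 a)) (fun a => W a ^ 2 * ∑ i, c i * v i a ^ 2)
    (fun a b => by
      have : ∀ (i : ι) (σ : T → ℤˣ), c i / 2 ^ Fintype.card T *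
          (W a * (((σ a : ℤ) : ℝ) * v i a) * (W b * (((σ b : ℤ) : ℝ) * v i b))) =
          W a * W b * (c i * (v i a * v i b)) / 2 ^ Fintype.card T *
            (((σ a : ℤ) : ℝ) * ((σ b : ℤ) : ℝ)) := fun i σ => by ring
      simp only [Fintype.sum_prod_type, this, ← mul_sum, sgn_sum]
      split_ifs with h
      · subst h
        rw [mul_sum]
        exact sum_congr rfl fun i _ => by field_simp
      · simp)
    (y := θ ^ 3 / 4) (β := q ^ 3 / 84) (by positivity)
    (fun a => le_trans (by gcongr; exact hT a a.2) (hp a)) (by positivity)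
    (by
      have : (Fintype.card T : ℝ) ^ 3 * (θ ^ 3 / 4) = (q ^ 2) ^ 3 / 4 := by
        rw [hq, Fintype.card_coe]; ring
      rw [this]
      nlinarith [pow_pos q1 6])
  refine ⟨T, inferInstance, fun l j => if k : j ∈ T then if l ∈ S then
    (((f l).2 ⟨j, k⟩ : ℤ) : ℝ) * v (f l).1 j else 0 else 0, fun l => ?_,
    fun l j hj => dif_neg hj, fun ε hε => (h ε hε).trans_eq ?_⟩
  · refine (mono hX fun j => ?_).trans (v1 (f l).1)
    beta_reduce
    split_ifs with k k'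
    · rcases Int.units_eq_one_or ((f l).2 ⟨j, k⟩) with e | e <;> simp [e]
    · simp
    · simp
  · rw [← sum_coe_sort T]
    refine sum_congr rfl fun a _ => ?_
    simp only [dif_pos a.2, mul_ite, mul_zero, sum_ite_mem, univ_inter, mul_left_comm _ (W _),
      ← mul_sum, abs_mul, abs_of_pos (W0 _)]

theorem upper (hm : 2 ≤ m) (hX : UncNorm X) (hY : UncNorm Y) :
    ∃ A : Matrix (Fin m) (Fin m) ℝ, A.PosDef ∧ A.IsDiag ∧ (∀ v, hn A v ≤ X v) ∧
      bal (hn A) Y ≤ ENNReal.ofReal (300000 * √(Real.log m)) * bal X Y := by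
  obtain ⟨W, p, ι, _, c, v, W0, p0, w1, c0, c1, v1, hp, y1, x1⟩ := opt (by omega) hX hY
  have : Nonempty (Fin m) := ⟨⟨0, by omega⟩⟩
  set Φ := ∑ j, p j with hΦ
  have Φ0 : 0 < Φ := sum_pos (fun j _ => p0 j) univ_nonempty
  have a0 : ∀ j, 0 < p j / W j := fun j => div_pos (p0 j) (W0 j)
  set s := √Φ with hs
  have s0 : 0 < s := Real.sqrt_pos.2 Φ0
  have s2 : s ^ 2 = Φ := Real.sq_sqrt Φ0.le
  have hh : ∀ u, hn (Matrix.diagonal fun j => ((p j / W j * s) ^ 2)⁻¹) u =
      √(∑ j, (u j / (p j / W j * s)) ^ 2) := fun u => by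
    simp only [hn, dotProduct, Matrix.mulVec_diagonal]
    exact congrArg _ (sum_congr rfl fun j _ => by ring)
  refine ⟨Matrix.diagonal fun j => ((p j / W j * s) ^ 2)⁻¹,
    Matrix.posDef_diagonal_iff.2 fun j => by have := a0 j; positivity, Matrix.isDiag_diagonal _,
    fun u => ?_, ?_⟩
  · rw [hh]
    rcases (apply_nonneg X u).eq_or_lt with k | k
    · simp [hX.1 u k.symm]
    have := x1 ((X u)⁻¹ • u) (by
      rw [map_smul_eq_mul, Real.norm_of_nonneg (by positivity), inv_mul_cancel₀ k.ne'])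
    refine Real.sqrt_le_iff.2 ⟨k.le, ?_⟩
    have e : ∑ j, (u j / (p j / W j * s)) ^ 2 =
        X u ^ 2 / Φ * ∑ j, ((X u)⁻¹ • u) j ^ 2 / (p j / W j) ^ 2 := by
      rw [mul_sum, ← s2]
      refine sum_congr rfl fun j _ => ?_
      have := p0 j
      have := W0 j
      simp only [Pi.smul_apply, smul_eq_mul]
      field_simp
    rw [e, div_mul_eq_mul_div, div_le_iff₀ Φ0]
    gcongr
  obtain ⟨j₀, hj₀⟩ := Finite.exists_max p
  set I := Nat.log 2 m + 3 with hI
  set r := √(8 * I : ℝ) with hr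
  have r0 : 0 < r := Real.sqrt_pos.2 (by positivity)
  have r2 : r ^ 2 = 8 * I := Real.sq_sqrt (by positivity)
  have lev : ∀ i : ℕ, ∃ g, Gm X W {j | p j₀ / 2 ^ i < p j} g ∧
      ∑ j with p j₀ / 2 ^ i < p j, p j ≤ 168 * (r / s) * g + 2 * i * (s / r) ^ 2 := fun i => by
    induction i with
    | zero =>
      have : ({j | p j₀ / 2 ^ 0 < p j} : Finset (Fin m)) = ∅ := by simpa using hj₀
      exact ⟨0, this ▸ Gm.empty W, by rw [this]; simp⟩
    | succ i ih =>
      obtain ⟨g, g1, g2⟩ := ih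
      have θ0 : 0 < p j₀ / 2 ^ (i + 1) := div_pos (p0 _) (by positivity)
      have e2 : p j₀ / 2 ^ i = 2 * (p j₀ / 2 ^ (i + 1)) := by rw [pow_succ]; field_simp
      generalize p j₀ / 2 ^ (i + 1) = θ at θ0 e2 ⊢
      rw [e2] at g1 g2
      set T : Finset (Fin m) := {j | θ < p j ∧ p j ≤ 2 * θ} with hT
      have e : univ.filter (fun j => θ < p j) = univ.filter (fun j => 2 * θ < p j) ∪ T := by
        ext j
        simp only [hT, mem_filter, mem_univ, true_and, mem_union]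
        exact ⟨fun h => (lt_or_ge _ _).imp_right fun k => ⟨h, k⟩,
          fun h => h.elim (fun k => by linarith) fun k => k.1⟩
      have d : Disjoint ({j | 2 * θ < p j} : Finset (Fin m)) T :=
        disjoint_filter.2 fun j _ h k => k.2.not_gt h
      set q := √(T.card * θ) with hq
      have q0 : 0 ≤ q := Real.sqrt_nonneg _
      have q2 : q ^ 2 = T.card * θ := Real.sq_sqrt (by positivity)
      rw [e, sum_union d]
      refine ⟨_, g1.union d (Gm.level hX W0 c0 c1 v1 hp T θ0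
        (fun j hj => (mem_filter.1 hj).2.1.le) q0 q2), ?_⟩
      have b1 := sum_le_card_nsmul T p (2 * θ) fun j hj => (mem_filter.1 hj).2.2
      have b2 : q ^ 2 ≤ r / s * q ^ 3 + (s / r) ^ 2 := by
        rcases le_total q (s / r) with k | k
        · exact le_add_of_nonneg_of_le (by positivity) (by gcongr)
        · have : 1 ≤ r / s * q := by
            rw [div_mul_eq_mul_div, one_le_div s0, ← div_le_iff₀' r0]; exact k
          exact le_add_of_le_of_nonneg (by nlinarith [sq_nonneg q]) (by positivity)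
      rw [nsmul_eq_mul] at b1
      push_cast
      nlinarith
  obtain ⟨g, ⟨κ, _, u, u1, -, u3⟩, g2⟩ := lev I
  have g3 : ∑ j with ¬ p j₀ / 2 ^ I < p j, p j ≤ Φ / 4 := by
    have h1 : p j₀ ≤ Φ := single_le_sum (fun j _ => (p0 j).le) (mem_univ _)
    have h2 : (m : ℝ) ≤ 2 ^ (Nat.log 2 m + 1) := by
      exact_mod_cast (Nat.lt_pow_succ_log_self one_lt_two m).le
    have h3 : ((univ.filter fun j => ¬ p j₀ / 2 ^ I < p j).card : ℝ) ≤ m := by
      exact_mod_cast (card_le_univ _).trans_eq (Fintype.card_fin m)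
    refine (sum_le_card_nsmul _ _ (p j₀ / 2 ^ I) fun j hj => not_lt.1 (mem_filter.1 hj).2).trans ?_
    rw [nsmul_eq_mul]
    calc _ ≤ 2 ^ (Nat.log 2 m + 1) * (Φ / 2 ^ I) := by have := p0 j₀; gcongr; exact h3.trans h2
      _ = Φ / 4 := by rw [hI]; field_simp; ring
  have g4 : Φ * s ≤ 336 * r * g := by
    have h1 := sum_filter_add_sum_filter_not univ (fun j => p j₀ / 2 ^ I < p j) p
    have I0 : (0 : ℝ) < I := by positivity
    have h2 : 2 * I * (s / r) ^ 2 = Φ / 4 := by rw [div_pow, r2, s2]; field_simp; ring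
    have h3 : Φ ≤ 336 * r * g / s := by
      rw [show 336 * r * g / s = 2 * (168 * (r / s) * g) by ring]
      linarith
    rwa [le_div_iff₀ s0] at h3
  have g0 : 0 ≤ g := by
    by_contra k
    nlinarith [mul_pos Φ0 s0, mul_pos r0 (neg_pos.2 (not_le.1 k))]
  have rl : r ≤ 7 * √(Real.log m) := by
    have l2 := Real.log_two_gt_d9
    have lm : Real.log 2 ≤ Real.log m := Real.log_le_log two_pos (by exact_mod_cast hm)
    have h : (2 : ℝ) ^ Nat.log 2 m ≤ m := by exact_mod_cast Nat.pow_log_le_self 2 (by omega)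
    have := Real.log_le_log (by positivity) h
    rw [Real.log_pow] at this
    refine Real.sqrt_le_iff.2 ⟨by positivity, ?_⟩
    rw [mul_pow, Real.sq_sqrt (by linarith), hI]
    push_cast
    nlinarith [(Nat.log 2 m).cast_nonneg (α := ℝ)]
  refine le_trans (bal_le (x := 300000 * √(Real.log m) * (g / 2)) fun n z hz => ?_) ?_
  · obtain ⟨ε, e1, e2⟩ := komlos (fun l j => z l j / (p j / W j * s)) fun l => by
      simpa only [hh, Real.sqrt_le_one] using hz l
    refine ⟨ε, e1, (mono hY (w := (60 * s) • fun j => p j / W j) fun j => ?_).trans ?_⟩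
    · have := e2 j
      have a1 := mul_pos (a0 j) s0
      simp only [← mul_div_assoc (ε _), ← sum_div, abs_div _ (_ * s), abs_of_pos a1,
        div_le_iff₀ a1] at this
      rw [Pi.smul_apply, smul_eq_mul, abs_of_pos (a := 60 * s * _) (by have := a0 j; positivity)]
      linarith
    · rw [map_smul_eq_mul, Real.norm_of_nonneg (by positivity)]
      nlinarith [mul_le_mul_of_nonneg_left y1 s0.le, mul_le_mul_of_nonneg_right rl g0,
        mul_nonneg (Real.sqrt_nonneg (Real.log m)) g0]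
  · rw [ENNReal.ofReal_mul (by positivity)]
    refine mul_le_mul_right (le_bal u u1 fun ε hε => ?_) _
    have := (u3 ε hε).trans (sum_le_univ_sum_of_nonneg fun j => mul_nonneg (W0 j).le (abs_nonneg _))
    linarith [w1 fun j => ∑ l, ε l * u l j]

end Pool.Agent.MP_122bd4_an.Unc
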